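import Mathlib
import Pool.Agent.Lib.MP_cdb312_al.Final

set_option autoImplicit false

namespace Pool.Agent.Results.MP_cdb312_al.UnboundedLength

/-- `HasSeries l H`: the group `H` has a subnormal series `1 = K 0 ⊴ K 1 ⊴ ⋯ ⊴ K l = H` of length
`l` with nilpotent factors. (The terms are only required to be normal in the next term; a series
with terms normal in `H` is a special case.) -/
def HasSeries (l : ℕ) (H : Type) [Group H] : Prop :=
  ∃ K : ℕ → Subgroup H, K 0 = ⊥ ∧ K l = ⊤ ∧ ∀ i, i < l → K i ≤ K (i + 1) ∧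
    ∃ _ : ((K i).subgroupOf (K (i + 1))).Normal,
      Group.IsNilpotent (K (i + 1) ⧸ (K i).subgroupOf (K (i + 1)))

/-- iterated commutators with a subgroup -/
def lc {G : Type} [Group G] (A : Subgroup G) : ℕ → Subgroup G
  | 0 => A
  | j + 1 => ⁅lc A j, A⁆

lemma lc_mono {G : Type} [Group G] {A B : Subgroup G} (h : A ≤ B) (j : ℕ) : lc A j ≤ lc B j := by
  induction j with
  | zero => exact h
  | succ j ih => exact Subgroup.commutator_mono ih h

lemma lc_map {G G' : Type} [Group G] [Group G'] (f : G →* G') (A : Subgroup G) (j : ℕ) :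
    lc (A.map f) j = (lc A j).map f := by
  induction j with
  | zero => rfl
  | succ j ih => rw [lc, lc, Subgroup.map_commutator, ih]

lemma lc_top {G : Type} [Group G] (j : ℕ) :
    lc (⊤ : Subgroup G) j = Subgroup.lowerCentralSeries (⊤ : Subgroup G) j := by
  induction j with
  | zero => rfl
  | succ j ih => rw [lc, ih, Subgroup.lowerCentralSeries_succ]

lemma lc_le_of_nilpotent {H : Type} [Group H] {A B : Subgroup H}
    (hn : (A.subgroupOf B).Normal) (h : Group.IsNilpotent (B ⧸ A.subgroupOf B)) :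
    ∃ c : ℕ, lc B c ≤ A := by
  obtain ⟨c, hc⟩ := (Subgroup.nilpotent_iff_lowerCentralSeries (G := B ⧸ A.subgroupOf B)).1 h
  refine ⟨c, ?_⟩
  have h1 : (lc (⊤ : Subgroup B) c).map (QuotientGroup.mk' (A.subgroupOf B)) = ⊥ := by
    rw [← lc_map, ← hc, ← lc_top]
    congr 1
    rw [← MonoidHom.range_eq_map]
    exact MonoidHom.range_eq_top.2 (QuotientGroup.mk'_surjective _)
  have h2 : lc (⊤ : Subgroup B) c ≤ A.subgroupOf B := by
    rw [Subgroup.map_eq_bot_iff, QuotientGroup.ker_mk'] at h1
    exact h1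
  have h3 : lc B c = (lc (⊤ : Subgroup B) c).map B.subtype := by
    rw [← lc_map]
    congr 1
    rw [← MonoidHom.range_eq_map, Subgroup.range_subtype]
  rw [h3, Subgroup.map_le_iff_le_comap]
  exact h2

/-- the descending series of a subgroup obtained from the classes `c` -/
def Ms {G : Type} [Group G] (H : Subgroup G) (c : ℕ → ℕ) : ℕ → Subgroup G
  | 0 => H
  | i + 1 => lc (Ms H c i) (c i)

lemma conj_lc {G : Type} [Group G] {H A : Subgroup G} (hA : ∀ h ∈ H, ∀ k ∈ A, h * k * h⁻¹ ∈ A)
    (j : ℕ) : ∀ h ∈ H, ∀ k ∈ lc A j, h * k * h⁻¹ ∈ lc A j := by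
  intro h hh k hk
  have h1 : ∀ B : Subgroup G, (∀ h ∈ H, ∀ k ∈ B, h * k * h⁻¹ ∈ B) → ∀ h ∈ H,
      B.map (MulAut.conj h).toMonoidHom ≤ B := by
    rintro B hB h hh _ ⟨k, hk, rfl⟩
    exact hB h hh k hk
  have h2 : ∀ j, (lc A j).map (MulAut.conj h).toMonoidHom ≤ lc A j := by
    intro j
    rw [← lc_map]
    exact lc_mono (h1 A hA h hh) j
  exact h2 j ⟨k, hk, rfl⟩

lemma conj_Ms {G : Type} [Group G] (H : Subgroup G) (c : ℕ → ℕ) (i : ℕ) :
    ∀ h ∈ H, ∀ k ∈ Ms H c i, h * k * h⁻¹ ∈ Ms H c i := by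
  induction i with
  | zero =>
      intro h hh k hk
      exact H.mul_mem (H.mul_mem hh hk) (H.inv_mem hh)
  | succ i ih => exact conj_lc ih (c i)

/-- **The nilpotent lengths of the subgroups of finite index of finitely presented soluble groups
are unbounded**: for every `l` there is a finitely presented soluble group `G` such that no subgroup
of finite index of `G` has a subnormal series of length `l` with nilpotent factors. -/
theorem result :
    ∀ l : ℕ, ∃ (G : Type) (_ : Group G), Group.IsFinitelyPresented G ∧ Group.IsSolvable G ∧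
      ∀ H : Subgroup G, H.FiniteIndex → ¬ HasSeries l H := by
  intro l
  obtain ⟨E, _, _, C, -, hS, p, -, hDD⟩ := Pool.Agent.MP_cdb312_al.levels l
  refine ⟨_, inferInstance, Pool.Agent.MP_cdb312_al.fp_Gr _ _ C, hS, ?_⟩
  intro H hH ⟨K, hK0, hKl, hK⟩
  have hc : ∀ i, ∃ c : ℕ, i < l → lc (K (i + 1)) c ≤ K i := by
    intro i
    by_cases hi : i < l
    · obtain ⟨-, hn, hnil⟩ := hK i hi
      obtain ⟨c, hc⟩ := lc_le_of_nilpotent hn hnil
      exact ⟨c, fun _ => hc⟩
    · exact ⟨0, fun h => absurd h hi⟩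
  choose c hc using hc
  have hle : ∀ i, i ≤ l → Ms H (fun i => c (l - (i + 1))) i ≤ (K (l - i)).map H.subtype := by
    intro i
    induction i with
    | zero =>
        intro _
        rw [Nat.sub_zero, hKl, ← MonoidHom.range_eq_map, Subgroup.range_subtype]
        exact le_rfl
    | succ i ih =>
        intro hi
        have h1 := ih (by omega)
        have e1 : l - (i + 1) + 1 = l - i := by omega
        have h2 := hc (l - (i + 1)) (by omega)
        rw [e1] at h2
        calc Ms H (fun i => c (l - (i + 1))) (i + 1)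
            ≤ lc ((K (l - i)).map H.subtype) (c (l - (i + 1))) := lc_mono h1 _
          _ = (lc (K (l - i)) (c (l - (i + 1)))).map H.subtype := lc_map _ _ _
          _ ≤ (K (l - (i + 1))).map H.subtype := Subgroup.map_mono h2
  obtain ⟨y, hy, e, hEv, he, -⟩ := hDD H hH.index_ne_zero (Ms H (fun i => c (l - (i + 1)))) rfl
    (fun i _ => conj_Ms H _ i) (fun i hi =>
      ⟨c (l - (i + 1)), lc (Ms H (fun i => c (l - (i + 1))) i), rfl, fun _ => rfl, le_rfl⟩)
  have h0 := hle l le_rfl hy
  rw [Nat.sub_self, hK0, Subgroup.map_bot, Subgroup.mem_bot] at h0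
  subst h0
  exact he (hEv.unique Pool.Agent.MP_cdb312_al.Ev_one)

end Pool.Agent.Results.MP_cdb312_al.UnboundedLength
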